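import Mathlib
import Pool.Agent.Q199.PG.Main
set_option autoImplicit false

/-! # MP_e5770a_an, Q1: the spectral bound of a positive group on an ordered Hilbert space equals
its growth bound (positive answer).

`H` is a nonzero real Hilbert space with a closed, normal, generating cone `K`
(`IsOrderCone`), `ι : H → E` is its complexification (`IsComplexification`), `T` is a strongly
continuous group of bounded operators on `E` (`IsGroup`) and every `T t` is positive
(`IsPositive`: `T t` maps `K` into `K`). `genSpectrum T` is the spectrum of the generator.

The proof: if the growth bound `ω` (a real number, as `T` is a group) were in the resolvent set of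
the generator `A`, then `R(λ, A)` would be bounded for real `λ ↓ ω`. By positivity and normality
`‖R(λ + iτ, A) x‖ ≤ C ‖R(λ, A) x‖` for `x` in the cone, so by the uniform boundedness principle the
resolvent is uniformly bounded for `Re z ↓ ω`. With the resolvent identity and Plancherel's theorem
for Hilbert space valued functions, `∫_0^∞ ‖exp (-λ t) T t u‖² dt ≤ D ‖u‖²` uniformly for `λ ↓ ω`,
and Datko's argument gives `‖T t‖ ≤ exp (ω t) / 2` for some `t > 0`, which contradicts the definition of `ω`. -/

namespace Pool.Agent.Results.MP_e5770a_an.SpectralEqGrowth

open Filter Topology Pool.Agent.Q199.PG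

universe u v

/-- For every positive strongly continuous group `T` on the complexification of a nonzero real
Hilbert space ordered by a closed, normal, generating cone, the growth bound
`ω = lim (1/t) log ‖T t‖` exists as a real number, it belongs to the spectrum of the generator, and
it is the supremum of the real parts of the spectrum of the generator. -/
theorem result (H : Type u) [NormedAddCommGroup H] [InnerProductSpace ℝ H] [CompleteSpace H]
    [Nontrivial H] (K : Set H) (hK : IsOrderCone K)
    (E : Type v) [NormedAddCommGroup E] [InnerProductSpace ℂ E] [CompleteSpace E]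
    (ι : H →ₗ[ℝ] E) (hι : IsComplexification ι)
    (T : ℝ → E →L[ℂ] E) (hT : IsGroup T) (hpos : ∀ t : ℝ, IsPositive K ι (T t)) :
    ∃ ω : ℝ, Tendsto (fun t : ℝ => t⁻¹ * Real.log ‖T t‖) atTop (𝓝 ω) ∧
      (ω : ℂ) ∈ genSpectrum T ∧ IsLUB (Complex.re '' genSpectrum T) ω :=
  main hK hι hT hpos

end Pool.Agent.Results.MP_e5770a_an.SpectralEqGrowth
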